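import Mathlib

/-!
# MP_fb2c2a_nt: the congruence `∑ D_k(3)^3 ≡ (-5/p) ∑ (-1)^k D_k(-1/16)^3` of (c) fails at `p = 5`
-/

namespace Pool.Agent.Results.MP_fb2c2a_nt.FailsAtFive

open Finset

/-- `D_n(x) = ∑ C(n,k) C(n+k,k) x^k` -/
def D (n : ℕ) (x : ℚ) : ℚ :=
  ∑ k ∈ range (n + 1), (n.choose k : ℚ) * ((n + k).choose k : ℚ) * x ^ k

/-- `a` and `b` are congruent modulo `p^2`: `a - b` is `p^2` times a rational number whose
denominator is prime to `p` -/
def Cong (p : ℕ) (a b : ℚ) : Prop := ∃ r : ℚ, ¬ p ∣ r.den ∧ a - b = (p : ℚ) ^ 2 * r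

/-- The first congruence of (c) fails at the prime `p = 5`. -/
theorem result : ∃ p : ℕ, ∃ _ : Fact p.Prime, 3 < p ∧
    ¬ Cong p (∑ k ∈ range p, D k 3 ^ 3)
      ((legendreSym p (-5) : ℚ) * ∑ k ∈ range p, (-1 : ℚ) ^ k * D k (-1 / 16) ^ 3) := by
  have F : Fact (Nat.Prime 5) := ⟨by norm_num⟩
  refine ⟨5, F, by norm_num, ?_⟩
  rintro ⟨r, hr, h⟩
  have hl : legendreSym 5 (-5) = 0 := by norm_num
  rw [hl] at h
  have d0 : D 0 3 = 1 := by simp [D]
  have d1 : D 1 3 = 7 := by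
    norm_num [D, sum_range_succ, Nat.choose]
  have d2 : D 2 3 = 73 := by
    norm_num [D, sum_range_succ, Nat.choose]
  have d3 : D 3 3 = 847 := by
    norm_num [D, sum_range_succ, Nat.choose]
  have d4 : D 4 3 = 10321 := by
    norm_num [D, sum_range_succ, Nat.choose]
  simp only [sum_range_succ, sum_range_zero, d0, d1, d2, d3, d4] at h
  have h2 : r = 1100032340945 / 25 := by
    norm_num at h
    linarith
  apply hr
  rw [h2]
  decide +kernel

end Pool.Agent.Results.MP_fb2c2a_nt.FailsAtFive
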